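import Pool.Agent.Y687.N.Defs

/-!
# Task LVL2 of project NEG: the crossing number of level two as a Dedekind sum
-/

set_option autoImplicit false

namespace Pool.Agent.Y971.N

open Finset Pool.Agent.Z700 Pool.Agent.Y687 Pool.Agent.Y687.N

/-! ### the right side -/

/-- the right side of the formula -/
noncomputable def RS (n : ℕ) (x y : ℤ) : ℚ :=
  12 * ded x n - 12 * ded (2 * x) n + saw n x - saw n (((n + 1) / 2 : ℕ) * y)

lemma saw_one (m : ℤ) : saw 1 m = 0 := by
  unfold saw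
  rw [if_pos]
  exact_mod_cast one_dvd m

lemma coprime_of_dvd {n : ℕ} {x y : ℤ} (h : (n : ℤ) ∣ x * y - 1) : IsCoprime x (n : ℤ) := by
  obtain ⟨k, hk⟩ := h
  exact ⟨y, -k, by linear_combination hk⟩

/-- the terms with the inverses -/
lemma inv_terms {n m x : ℕ} {y y' : ℤ} (hn : n = m + 2 * x) (hm : 1 < m) (hodd : Odd n)
    (hy : (n : ℤ) ∣ x * y - 1) (hy' : (m : ℤ) ∣ x * y' - 1) :
    -saw n (((n + 1) / 2 : ℕ) * y) + saw m (((m + 1) / 2 : ℕ) * y') = 1 / (n * m : ℚ) := by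
  have hodd' : Odd m := by
    rw [hn] at hodd
    obtain ⟨k, hk⟩ := hodd
    exact ⟨k - x, by omega⟩
  have hcop : Nat.Coprime m n := by
    have h1 : IsCoprime (x : ℤ) (n : ℤ) := coprime_of_dvd hy
    have h2 : IsCoprime (2 : ℤ) (n : ℤ) := by
      obtain ⟨k, hk⟩ := hodd
      exact ⟨-k, 1, by rw [hk]; push_cast; ring⟩
    have h3 : IsCoprime (2 * x : ℤ) (n : ℤ) := h2.mul_left h1
    have h4 : IsCoprime (m : ℤ) (n : ℤ) := by
      obtain ⟨u, v, huv⟩ := h3
      refine ⟨-u, v + u, ?_⟩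
      rw [← huv, hn]
      push_cast
      ring
    exact Nat.isCoprime_iff_coprime.mp h4
  have hn1 : 1 < n := by omega
  -- the inverse of `m` modulo `n`
  obtain ⟨s, hs0, hsn, j, hj⟩ : ∃ s : ℕ, 0 < s ∧ s < n ∧ ∃ j : ℕ, m * s = 1 + n * j := by
    obtain ⟨u, hu⟩ := Nat.exists_mul_mod_eq_one_of_coprime hcop hn1
    refine ⟨u % n, ?_, Nat.mod_lt _ (by omega), m * (u % n) / n, ?_⟩
    · rcases Nat.eq_zero_or_pos (u % n) with h | h
      · rw [Nat.mul_mod, h, mul_zero, Nat.zero_mod] at hu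
        omega
      · exact h
    · have h1 : m * (u % n) % n = 1 := by rw [Nat.mul_mod, Nat.mod_mod, ← Nat.mul_mod]; exact hu.2
      have h2 := Nat.mod_add_div (m * (u % n)) n
      rw [h1] at h2
      exact h2.symm
  have hjm : j < m := by
    by_contra h
    push Not at h
    have h1 : m * s < m * n := Nat.mul_lt_mul_of_pos_left hsn (by omega)
    have h2 : n * m ≤ n * j := Nat.mul_le_mul_left n h
    nlinarith
  have hj0 : 0 < j := by
    rcases Nat.eq_zero_or_pos j with h | h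
    · rw [h, mul_zero, add_zero] at hj
      have := Nat.eq_one_of_mul_eq_one_right hj
      omega
    · exact h
  have hjZ : (m : ℤ) * s = 1 + n * j := by exact_mod_cast hj
  have hnZ : (n : ℤ) = m + 2 * x := by exact_mod_cast hn
  have hcx : IsCoprime (n : ℤ) (2 * x : ℤ) := by
    have h1 : IsCoprime (x : ℤ) (n : ℤ) := coprime_of_dvd hy
    have h2 : IsCoprime (2 : ℤ) (n : ℤ) := by
      obtain ⟨k, hk⟩ := hodd
      exact ⟨-k, 1, by rw [hk]; push_cast; ring⟩
    exact (h2.mul_left h1).symm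
  have hcx' : IsCoprime (m : ℤ) (2 * x : ℤ) := by
    have h1 : IsCoprime (x : ℤ) (m : ℤ) := coprime_of_dvd hy'
    have h2 : IsCoprime (2 : ℤ) (m : ℤ) := by
      obtain ⟨k, hk⟩ := hodd'
      exact ⟨-k, 1, by rw [hk]; push_cast; ring⟩
    exact (h2.mul_left h1).symm
  have hhalf : (2 : ℤ) * (((n + 1) / 2 : ℕ) : ℤ) = n + 1 := by
    obtain ⟨k, hk⟩ := hodd
    have : (n + 1) / 2 = k + 1 := by omega
    rw [this, hk]
    push_cast
    ring
  have hhalf' : (2 : ℤ) * (((m + 1) / 2 : ℕ) : ℤ) = m + 1 := by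
    obtain ⟨k, hk⟩ := hodd'
    have : (m + 1) / 2 = k + 1 := by omega
    rw [this, hk]
    push_cast
    ring
  have e1 : saw n (((n + 1) / 2 : ℕ) * y) = saw n (-(s : ℤ)) := by
    apply saw_congr
    apply hcx.dvd_of_dvd_mul_left
    obtain ⟨k, hk⟩ := hy
    refine ⟨x * y + k + s - j, ?_⟩
    linear_combination (x * y : ℤ) * hhalf + hk - hjZ + (-(s : ℤ)) * hnZ
  have e2 : saw m (((m + 1) / 2 : ℕ) * y') = saw m ((m - j : ℕ) : ℤ) := by
    apply saw_congr
    apply hcx'.dvd_of_dvd_mul_left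
    obtain ⟨k, hk⟩ := hy'
    rw [Nat.cast_sub hjm.le]
    refine ⟨x * y' + k - 2 * x - j + s, ?_⟩
    linear_combination (x * y' : ℤ) * hhalf' + hk - hjZ + (-(j : ℤ)) * hnZ
  rw [e1, e2, saw_neg (by omega), saw_nat hs0 hsn, saw_nat (by omega) (by omega),
    Nat.cast_sub hjm.le]
  have hn0 : (n : ℚ) ≠ 0 := by exact_mod_cast (by omega : n ≠ 0)
  have hm0 : (m : ℚ) ≠ 0 := by exact_mod_cast (by omega : m ≠ 0)
  have hjQ : (m : ℚ) * s = 1 + n * j := by exact_mod_cast hj
  field_simp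
  linear_combination 2 * hjQ

/-- the recursion of the right side -/
lemma RS_rec {n m x : ℕ} {y y' : ℤ} (hn : n = m + 2 * x) (hx : 0 < x) (hm : 0 < m) (hodd : Odd n)
    (hy : (n : ℤ) ∣ x * y - 1) (hy' : (m : ℤ) ∣ x * y' - 1) :
    RS n x y - RS m x y' = ((if m = 1 then x else x / m + 1 : ℕ) : ℚ) := by
  have hn0 : (n : ℚ) ≠ 0 := by exact_mod_cast (by omega : n ≠ 0)
  have hm0 : (m : ℚ) ≠ 0 := by exact_mod_cast (by omega : m ≠ 0)
  have hx0 : (x : ℚ) ≠ 0 := by exact_mod_cast (by omega : x ≠ 0)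
  have hnQ : (n : ℚ) = m + 2 * x := by exact_mod_cast hn
  have hodd' : Odd m := by
    rw [hn] at hodd
    obtain ⟨k, hk⟩ := hodd
    exact ⟨k - x, by omega⟩
  have c1 : Nat.Coprime x n := Nat.isCoprime_iff_coprime.mp (coprime_of_dvd hy)
  have c1' : Nat.Coprime x m := Nat.isCoprime_iff_coprime.mp (coprime_of_dvd hy')
  have c2 : Nat.Coprime (2 * x) n := Nat.Coprime.mul_left
    (Nat.coprime_two_left.mpr hodd) c1
  have c2' : Nat.Coprime (2 * x) m := Nat.Coprime.mul_left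
    (Nat.coprime_two_left.mpr hodd') c1'
  have r1 := ded_recip hx (show 0 < n by omega) c1
  have r1' := ded_recip hx hm c1'
  have r2 := ded_recip (show 0 < 2 * x by omega) (show 0 < n by omega) c2
  have r2' := ded_recip (show 0 < 2 * x by omega) hm c2'
  have d1 : ded (n : ℤ) x = ded (m : ℤ) x := ded_congr ⟨2, by rw [hn]; push_cast; ring⟩
  have d2 : ded (n : ℤ) (2 * x) = ded (m : ℤ) (2 * x) :=
    ded_congr ⟨1, by rw [hn]; push_cast; ring⟩
  rw [d1] at r1
  rw [d2] at r2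
  push_cast at r2 r2'
  have hD : 12 * ded x n - 12 * ded (2 * x) n - (12 * ded x m - 12 * ded (2 * x) m)
      = -(x / n : ℚ) + x / m + 1 - 1 / (n * m) := by
    have h1 : 12 * ded x n - 12 * ded (2 * x) n - (12 * ded x m - 12 * ded (2 * x) m)
      = ((x : ℚ) / n + n / x + 1 / (x * n)) - (2 * x / n + n / (2 * x) + 1 / (2 * x * n))
        - ((x : ℚ) / m + m / x + 1 / (x * m)) + (2 * x / m + m / (2 * x) + 1 / (2 * x * m)) := by
      linear_combination r1 - r1' - r2 + r2'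
    rw [h1, hnQ]
    have h2 : (m : ℚ) + 2 * x ≠ 0 := by rw [← hnQ]; exact hn0
    field_simp
    ring
  have hs1 : saw n (x : ℤ) = (x : ℚ) / n - 1 / 2 := saw_nat hx (by omega)
  unfold RS
  by_cases hm1 : m = 1
  · subst hm1
    rw [if_pos rfl]
    have hz : ∀ u, saw 1 u = 0 := saw_one
    rw [hz, hz]
    have e1 : saw n (((n + 1) / 2 : ℕ) * y) = 1 / 2 - 1 / n := by
      have h0 : saw n (((n + 1) / 2 : ℕ) * y) = saw n (-((1 : ℕ) : ℤ)) := by
        apply saw_congr
        have hcx : IsCoprime (n : ℤ) (2 * x : ℤ) := by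
          have := Nat.isCoprime_iff_coprime.mpr c2
          push_cast at this
          exact this.symm
        apply hcx.dvd_of_dvd_mul_left
        obtain ⟨k, hk⟩ := hy
        have hhalf : (2 : ℤ) * (((n + 1) / 2 : ℕ) : ℤ) = n + 1 := by
          obtain ⟨k, hk⟩ := hodd
          have : (n + 1) / 2 = k + 1 := by omega
          rw [this, hk]
          push_cast
          ring
        have hnZ : (n : ℤ) = 1 + 2 * x := by exact_mod_cast hn
        refine ⟨x * y + k + 1, ?_⟩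
        rw [Nat.cast_one]
        linear_combination (x * y : ℤ) * hhalf + hk - hnZ
      rw [h0, saw_neg (by omega), saw_nat (by omega) (by omega)]
      push_cast
      ring
    rw [e1, hs1]
    push_cast at hD ⊢
    have h3 : 12 * ded x n - 12 * ded (2 * x) n - (12 * ded x 1 - 12 * ded (2 * x) 1)
        = -(x / n : ℚ) + x + 1 - 1 / n := by
      rw [hD]
      ring
    linear_combination h3
  · rw [if_neg hm1]
    have h1 := inv_terms hn (by omega) hodd hy hy'
    have hs2 : saw m (x : ℤ) = (x : ℚ) / m - ((x / m : ℕ) : ℚ) - 1 / 2 := by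
      have h2 := Nat.mod_add_div x m
      have h3 : 0 < x % m := by
        rcases Nat.eq_zero_or_pos (x % m) with h | h
        · have h4 : m ∣ x := Nat.dvd_of_mod_eq_zero h
          have h5 := Nat.dvd_gcd h4 dvd_rfl
          rw [c1'] at h5
          have := Nat.dvd_one.mp h5
          omega
        · exact h
      have h4 : saw m (x : ℤ) = saw m ((x % m : ℕ) : ℤ) := by
        apply saw_congr
        refine ⟨(x / m : ℕ), ?_⟩
        have : (x : ℤ) = (x % m : ℕ) + m * (x / m : ℕ) := by exact_mod_cast h2.symm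
        linear_combination this
      rw [h4, saw_nat h3 (Nat.mod_lt _ hm)]
      have h5 : (x : ℚ) = (x % m : ℕ) + m * (x / m : ℕ) := by exact_mod_cast h2.symm
      have h6 : (x : ℚ) / m = ((x % m : ℕ) : ℚ) / m + (x / m : ℕ) := by
        rw [eq_div_of_mul_eq hm0 (show ((((x % m : ℕ) : ℚ) / m + (x / m : ℕ)) * m = x) by
          rw [add_mul, div_mul_cancel₀ _ hm0, h5]
          push_cast
          ring)]
      rw [h6]
      ring
    rw [hs1, hs2, Nat.cast_add, Nat.cast_one]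
    linear_combination hD + h1

/-! ### the left side -/

/-- adjacent fractions `c / a < x / n < c' / a'`; `q = (c, a, c', a')` -/
def Adj (n x : ℤ) (q : ℤ × ℤ × ℤ × ℤ) : Prop :=
  0 < q.2.1 ∧ 0 < q.2.2.2 ∧ q.2.1 * q.2.2.1 - q.2.2.2 * q.1 = 1 ∧ 0 < q.2.1 * x - q.1 * n ∧
    0 < q.2.2.1 * n - q.2.2.2 * x

/-- left denominator even -/
def SA (n x : ℤ) : Set (ℤ × ℤ × ℤ × ℤ) := {q | Adj n x q ∧ 2 ∣ q.2.1}

/-- right denominator even -/
def SB (n x : ℤ) : Set (ℤ × ℤ × ℤ × ℤ) := {q | Adj n x q ∧ 2 ∣ q.2.2.2}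

/-- the adjacent fractions of a factorization -/
def toQ (n : ℕ) (x : ℤ) (w : Σ _ : ℕ, ℕ × ℕ) : ℤ × ℤ × ℤ × ℤ :=
  (((w.2.1 : ℤ) * x - ((w.1 / w.2.2 : ℕ) : ℤ)) / n, (w.2.1 : ℤ),
    ((w.2.2 : ℤ) * x + (((n - w.1) / w.2.1 : ℕ) : ℤ)) / n, (w.2.2 : ℤ))

lemma mem_Om {n : ℕ} {T a a' : ℕ} : (⟨T, (a, a')⟩ : Σ _ : ℕ, ℕ × ℕ) ∈ Om 1 n ↔
    T < n ∧ a ∣ n - T ∧ 2 ∣ a ∧ a' ∣ T ∧ T ≠ 0 := by
  unfold Om
  rw [mem_sigma, mem_range, mem_product, mem_filter, mem_filter, Nat.mem_divisors,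
    Nat.mem_divisors]
  constructor
  · rintro ⟨h1, ⟨⟨h2, -⟩, h3⟩, ⟨⟨h4, h5⟩, -⟩⟩
    exact ⟨h1, h2, h3, h4, h5⟩
  · rintro ⟨h1, h2, h3, h4, h5⟩
    refine ⟨h1, ⟨⟨h2, ?_⟩, h3⟩, ⟨⟨h4, h5⟩, one_dvd _⟩⟩
    change n - T ≠ 0
    omega

lemma SA_eq (n : ℕ) (hn : 0 < n) (x : ℤ) :
    SA n x = (((Om 1 n).filter fun w => Cd n x w).image (toQ n x) : Finset (ℤ × ℤ × ℤ × ℤ)) := by
  have hn0 : (n : ℤ) ≠ 0 := by exact_mod_cast hn.ne'
  ext q
  rw [Finset.coe_image]
  constructor
  · rintro ⟨⟨ha, ha', hdet, hX, hY⟩, h2⟩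
    obtain ⟨c, a, c', a'⟩ := q
    simp only at ha ha' hdet hX hY h2
    obtain ⟨α, rfl⟩ := Int.eq_ofNat_of_zero_le ha.le
    obtain ⟨β, rfl⟩ := Int.eq_ofNat_of_zero_le ha'.le
    obtain ⟨X, hX'⟩ := Int.eq_ofNat_of_zero_le hX.le
    obtain ⟨Y, hY'⟩ := Int.eq_ofNat_of_zero_le hY.le
    rw [hX'] at hX
    rw [hY'] at hY
    have e : (α : ℤ) * Y + β * X = n := by
      rw [← hX', ← hY']
      linear_combination (n : ℤ) * hdet
    have e' : α * Y + β * X = n := by exact_mod_cast e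
    have hα : 0 < α := by exact_mod_cast ha
    have hβ : 0 < β := by exact_mod_cast ha'
    have hX0 : 0 < X := by exact_mod_cast hX
    have hY0 : 0 < Y := by exact_mod_cast hY
    have hαY : 0 < α * Y := Nat.mul_pos hα hY0
    have hβX : 0 < β * X := Nat.mul_pos hβ hX0
    have e1 : β * X / β = X := Nat.mul_div_cancel_left _ hβ
    have e2 : n - β * X = α * Y := by omega
    have e3 : (n - β * X) / α = Y := by rw [e2]; exact Nat.mul_div_cancel_left _ hα
    refine ⟨⟨β * X, (α, β)⟩, ?_, ?_⟩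
    · rw [Finset.mem_coe, Finset.mem_filter, mem_Om]
      refine ⟨⟨by omega, ?_, ?_, Dvd.intro _ rfl, by omega⟩, ?_, ?_⟩
      · rw [e2]
        exact Dvd.intro _ rfl
      · exact_mod_cast h2
      · simp only
        rw [e1]
        exact ⟨c, by linear_combination hX'⟩
      · simp only
        rw [e3]
        exact ⟨c', by linear_combination -hY'⟩
    · unfold toQ
      simp only
      rw [e1, e3, show (α : ℤ) * x - X = n * c by linear_combination hX',
        show (β : ℤ) * x + Y = n * c' by linear_combination -hY', Int.mul_ediv_cancel_left _ hn0,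
        Int.mul_ediv_cancel_left _ hn0]
  · rintro ⟨⟨T, a, a'⟩, hw, rfl⟩
    rw [Finset.mem_coe, Finset.mem_filter, mem_Om] at hw
    obtain ⟨⟨hT, ha, h2, ha', hT0⟩, ⟨c, hc⟩, ⟨c', hc'⟩⟩ := hw
    simp only at hc hc'
    have hα : 0 < a := by
      rcases Nat.eq_zero_or_pos a with h | h
      · rw [h, Nat.zero_dvd] at ha
        omega
      · exact h
    have hβ : 0 < a' := by
      rcases Nat.eq_zero_or_pos a' with h | h
      · rw [h, Nat.zero_dvd] at ha'
        omega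
      · exact h
    obtain ⟨X, hX⟩ := ha'
    obtain ⟨Y, hY⟩ := ha
    have e1 : T / a' = X := by rw [hX]; exact Nat.mul_div_cancel_left _ hβ
    have e2 : (n - T) / a = Y := by rw [hY]; exact Nat.mul_div_cancel_left _ hα
    have hX0 : 0 < X := by
      rcases Nat.eq_zero_or_pos X with h | h
      · rw [h, mul_zero] at hX
        omega
      · exact h
    have hY0 : 0 < Y := by
      rcases Nat.eq_zero_or_pos Y with h | h
      · rw [h, mul_zero] at hY
        omega
      · exact h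
    have e : (a : ℤ) * Y + a' * X = n := by
      have : a * Y + a' * X = n := by omega
      exact_mod_cast this
    rw [e1] at hc
    rw [e2] at hc'
    have hq : toQ n x ⟨T, (a, a')⟩ = (c, (a : ℤ), c', (a' : ℤ)) := by
      unfold toQ
      simp only
      rw [e1, e2, show (a : ℤ) * x - X = n * c by linear_combination hc,
        show (a' : ℤ) * x + Y = n * c' by linear_combination hc', Int.mul_ediv_cancel_left _ hn0,
        Int.mul_ediv_cancel_left _ hn0]
    rw [hq]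
    refine ⟨⟨show (0 : ℤ) < (a : ℤ) by exact_mod_cast hα,
      show (0 : ℤ) < (a' : ℤ) by exact_mod_cast hβ, ?_, ?_, ?_⟩,
      show (2 : ℤ) ∣ (a : ℤ) by exact_mod_cast h2⟩
    · simp only
      apply mul_left_cancel₀ hn0
      linear_combination e - (a : ℤ) * hc' + (a' : ℤ) * hc
    · simp only
      have : (a : ℤ) * x - c * n = X := by linear_combination hc
      rw [this]
      exact_mod_cast hX0
    · simp only
      have : c' * (n : ℤ) - a' * x = Y := by linear_combination -hc'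
      rw [this]
      exact_mod_cast hY0

lemma toQ_inj (n : ℕ) (hn : 0 < n) (x : ℤ) :
    Set.InjOn (toQ n x) ((Om 1 n).filter fun w => Cd n x w : Finset (Σ _ : ℕ, ℕ × ℕ)) := by
  have hn0 : (n : ℤ) ≠ 0 := by exact_mod_cast hn.ne'
  rintro ⟨T, a, a'⟩ hw ⟨U, b, b'⟩ hv h
  rw [Finset.mem_coe, Finset.mem_filter, mem_Om] at hw hv
  obtain ⟨⟨hT, ha, h2, ha', hT0⟩, ⟨c, hc⟩, ⟨c', hc'⟩⟩ := hw
  obtain ⟨⟨hU, hb, h2', hb', hU0⟩, ⟨d, hd⟩, ⟨d', hd'⟩⟩ := hv
  simp only at hc hc' hd hd'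
  unfold toQ at h
  simp only [Prod.mk.injEq] at h
  obtain ⟨h1, h3, h4, h5⟩ := h
  have h3' : a = b := by exact_mod_cast h3
  have h5' : a' = b' := by exact_mod_cast h5
  subst h3' h5'
  rw [hc, hd, Int.mul_ediv_cancel_left _ hn0, Int.mul_ediv_cancel_left _ hn0] at h1
  subst h1
  have h6 : ((T / a' : ℕ) : ℤ) = ((U / a' : ℕ) : ℤ) := by linear_combination hd - hc
  have h7 : T / a' = U / a' := by exact_mod_cast h6
  have h8 : T = U := by
    rw [← Nat.mul_div_cancel' ha', ← Nat.mul_div_cancel' hb', h7]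
  rw [h8]

lemma SA_card (n : ℕ) (hn : 0 < n) (x : ℤ) : (SA n x).Finite ∧ Nq 1 n x = ((SA n x).ncard : ℤ) := by
  rw [SA_eq n hn x]
  refine ⟨Finset.finite_toSet _, ?_⟩
  rw [Set.ncard_coe_finset, Finset.card_image_of_injOn (toQ_inj n hn x)]
  rfl

/-- reflection -/
def refl4 (q : ℤ × ℤ × ℤ × ℤ) : ℤ × ℤ × ℤ × ℤ := (-q.2.2.1, q.2.2.2, -q.1, q.2.1)

lemma refl4_inj : Function.Injective refl4 := by
  rintro ⟨a, b, c, d⟩ ⟨a', b', c', d'⟩ h
  unfold refl4 at h
  simp only [Prod.mk.injEq, neg_inj] at h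
  obtain ⟨h1, h2, h3, h4⟩ := h
  rw [h1, h2, h3, h4]

lemma SB_eq (n x : ℤ) : SA n (-x) = refl4 '' SB n x := by
  ext q
  constructor
  · rintro ⟨⟨h1, h2, h3, h4, h5⟩, h6⟩
    obtain ⟨a, b, c, d⟩ := q
    simp only at h1 h2 h3 h4 h5 h6
    refine ⟨(-c, d, -a, b), ⟨⟨h2, h1, ?_, ?_, ?_⟩, h6⟩, ?_⟩
    · simp only
      linear_combination h3
    · simp only
      linarith
    · simp only
      linarith
    · unfold refl4
      simp
  · rintro ⟨⟨a, b, c, d⟩, ⟨⟨h1, h2, h3, h4, h5⟩, h6⟩, rfl⟩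
    simp only at h1 h2 h3 h4 h5 h6
    refine ⟨⟨h2, h1, ?_, ?_, ?_⟩, h6⟩
    · unfold refl4
      simp only
      linear_combination h3
    · unfold refl4
      simp only
      linarith
    · unfold refl4
      simp only
      linarith

lemma SB_card (n : ℕ) (hn : 0 < n) (x : ℤ) :
    (SB n x).Finite ∧ Nq 1 n (-x) = ((SB n x).ncard : ℤ) := by
  obtain ⟨h1, h2⟩ := SA_card n hn (-x)
  rw [SB_eq] at h1 h2
  refine ⟨Set.Finite.of_finite_image h1 refl4_inj.injOn, ?_⟩
  rw [h2, Set.ncard_image_of_injective _ refl4_inj]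

/-- the map of the recursion -/
def gg (q : ℤ × ℤ × ℤ × ℤ) : ℤ × ℤ × ℤ × ℤ :=
  (q.1, q.2.1 + 2 * q.1, q.2.2.1, q.2.2.2 + 2 * q.2.2.1)

lemma gg_inj : Function.Injective gg := by
  rintro ⟨a, b, c, d⟩ ⟨a', b', c', d'⟩ h
  unfold gg at h
  simp only [Prod.mk.injEq] at h
  obtain ⟨h1, h2, h3, h4⟩ := h
  subst h1 h3
  have h5 : b = b' := by linarith
  have h6 : d = d' := by linarith
  rw [h5, h6]

/-- nonnegativity of the numerators -/
lemma num_nonneg {n x : ℤ} (hn : 0 < n) (hx : 0 < x) {q : ℤ × ℤ × ℤ × ℤ} (h : Adj n x q) :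
    0 ≤ q.1 ∧ 0 < q.2.2.1 := by
  obtain ⟨h1, h2, h3, h4, h5⟩ := h
  have h6 : 0 < q.2.2.1 := by
    by_contra hcon
    push Not at hcon
    have : 0 < q.2.2.2 * x := mul_pos h2 hx
    nlinarith
  refine ⟨?_, h6⟩
  by_contra hcon
  push Not at hcon
  have h7 : 1 ≤ q.2.1 * q.2.2.1 := Int.add_one_le_iff.mpr (mul_pos h1 h6)
  have h8 : 0 < q.2.2.2 * (-q.1) := mul_pos h2 (by omega)
  nlinarith

/-- the adjacent pairs around `x / (m + 2 x)` -/
lemma Adj_rec {m x : ℤ} (hm : 0 < m) (hx : 0 < x) (q : ℤ × ℤ × ℤ × ℤ) :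
    Adj (m + 2 * x) x q ↔ (∃ r, Adj m x r ∧ gg r = q) ∨
      (0 ≤ q.1 ∧ q.1 * m < x ∧ q.2.1 = 2 * q.1 + 1 ∧ q.2.2.1 = 1 ∧ q.2.2.2 = 2) ∨
      (q.1 = 0 ∧ q.2.1 = 1 ∧ q.2.2.1 = 1 ∧ q.2.2.2 = 1) := by
  obtain ⟨c, a, c', a'⟩ := q
  constructor
  · intro h
    obtain ⟨h6, h7⟩ := num_nonneg (by omega) hx h
    obtain ⟨h1, h2, h3, h4, h5⟩ := h
    simp only at h1 h2 h3 h4 h5 h6 h7 ⊢
    have h8 : 0 < a - 2 * c := by
      by_contra hcon
      push Not at hcon
      have : c * m ≥ 0 := mul_nonneg h6 hm.le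
      nlinarith
    have h9 : (a - 2 * c) * c' - (a' - 2 * c') * c = 1 := by linear_combination h3
    rcases lt_trichotomy (a' - 2 * c') 0 with h10 | h10 | h10
    · right; right
      have h11 : 1 ≤ (a - 2 * c) * c' := Int.add_one_le_iff.mpr (mul_pos h8 h7)
      have h12 : 0 ≤ (-(a' - 2 * c')) * c := mul_nonneg (by omega) h6
      have h13 : (-(a' - 2 * c')) * c = 0 := by nlinarith
      have h14 : c = 0 := by
        rcases mul_eq_zero.mp h13 with h | h
        · omega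
        · exact h
      subst h14
      have h15 : a * c' = 1 := by linarith
      have h16 : a = 1 := Int.eq_one_of_mul_eq_one_right h1.le h15
      subst h16
      have h17 : c' = 1 := by linarith
      subst h17
      exact ⟨rfl, rfl, rfl, by omega⟩
    · right; left
      rw [h10, zero_mul, sub_zero] at h9
      have h11 : a - 2 * c = 1 := Int.eq_one_of_mul_eq_one_right h8.le h9
      rw [h11, one_mul] at h9
      subst h9
      have h12 : a = 2 * c + 1 := by omega
      subst h12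
      exact ⟨h6, by nlinarith, rfl, rfl, by omega⟩
    · left
      refine ⟨(c, a - 2 * c, c', a' - 2 * c'), ⟨h8, h10, h9, ?_, ?_⟩, ?_⟩
      · simp only
        linarith
      · simp only
        linarith
      · unfold gg
        simp
  · rintro (⟨⟨d, b, d', b'⟩, h, hq⟩ | ⟨h1, h2, h3, h4, h5⟩ | ⟨h1, h2, h3, h4⟩)
    · obtain ⟨h6, h7⟩ := num_nonneg hm hx h
      obtain ⟨h1, h2, h3, h4, h5⟩ := h
      rw [← hq]
      unfold gg
      simp only at h1 h2 h3 h4 h5 h6 h7 ⊢
      refine ⟨?_, ?_, ?_, ?_, ?_⟩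
      · simp only
        omega
      · simp only
        omega
      · simp only
        linear_combination h3
      · simp only
        linarith
      · simp only
        linarith
    · simp only at h1 h2 h3 h4 h5
      subst h3 h4 h5
      refine ⟨?_, ?_, ?_, ?_, ?_⟩
      · simp only
        omega
      · simp only
        omega
      · simp only
        ring
      · simp only
        linarith
      · simp only
        linarith
    · simp only at h1 h2 h3 h4
      subst h1 h2 h3 h4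
      refine ⟨?_, ?_, ?_, ?_, ?_⟩
      · simp only
        omega
      · simp only
        omega
      · simp only
        ring
      · simp only
        linarith
      · simp only
        linarith

lemma SA_rec {m x : ℤ} (hm : 0 < m) (hx : 0 < x) : SA (m + 2 * x) x = gg '' SA m x := by
  ext q
  constructor
  · rintro ⟨h, h2⟩
    rcases (Adj_rec hm hx q).mp h with ⟨r, hr, rfl⟩ | ⟨-, -, h3, -, -⟩ | ⟨-, h3, -, -⟩
    · refine ⟨r, ⟨hr, ?_⟩, rfl⟩
      unfold gg at h2
      simp only at h2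
      omega
    · rw [h3] at h2
      omega
    · rw [h3] at h2
      omega
  · rintro ⟨r, ⟨hr, h2⟩, rfl⟩
    refine ⟨(Adj_rec hm hx _).mpr (Or.inl ⟨r, hr, rfl⟩), ?_⟩
    unfold gg
    simp only
    omega

/-- the pairs with right end `1 / 2` -/
def hh2 (c : ℕ) : ℤ × ℤ × ℤ × ℤ := ((c : ℤ), 2 * c + 1, 1, 2)

lemma SB_rec {m x : ℕ} (hm : 0 < m) (hx : 0 < x) (k : ℕ) (hk : ∀ c : ℕ, c * m < x ↔ c < k) :
    SB ((m : ℤ) + 2 * x) x = gg '' SB m x ∪ hh2 '' (Finset.range k : Set ℕ) := by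
  have hm' : (0 : ℤ) < m := by exact_mod_cast hm
  have hx' : (0 : ℤ) < x := by exact_mod_cast hx
  ext q
  constructor
  · rintro ⟨h, h2⟩
    rcases (Adj_rec hm' hx' q).mp h with ⟨r, hr, rfl⟩ | ⟨h3, h4, h5, h6, h7⟩ | ⟨-, -, -, h3⟩
    · left
      refine ⟨r, ⟨hr, ?_⟩, rfl⟩
      unfold gg at h2
      simp only at h2
      omega
    · right
      obtain ⟨c, a, c', a'⟩ := q
      simp only at h3 h4 h5 h6 h7
      obtain ⟨γ, rfl⟩ := Int.eq_ofNat_of_zero_le h3
      refine ⟨γ, ?_, ?_⟩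
      · rw [Finset.mem_coe, Finset.mem_range, ← hk]
        exact_mod_cast h4
      · unfold hh2
        rw [h5, h6, h7]
    · rw [h3] at h2
      omega
  · rintro (⟨r, ⟨hr, h2⟩, rfl⟩ | ⟨c, hc, rfl⟩)
    · refine ⟨(Adj_rec hm' hx' _).mpr (Or.inl ⟨r, hr, rfl⟩), ?_⟩
      unfold gg
      simp only
      omega
    · rw [Finset.mem_coe, Finset.mem_range, ← hk] at hc
      refine ⟨(Adj_rec hm' hx' _).mpr (Or.inr (Or.inl ?_)), ?_⟩
      · unfold hh2
        exact ⟨by positivity, show (c : ℤ) * m < x by exact_mod_cast hc, rfl, rfl, rfl⟩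
      · unfold hh2
        simp

lemma hh2_inj : Function.Injective hh2 := by
  intro c d h
  have := congrArg Prod.fst h
  unfold hh2 at this
  simpa using this

/-- the recursion of the left side -/
lemma Fq_rec {m x : ℕ} (hm : 0 < m) (hx : 0 < x) (k : ℕ) (hk : ∀ c : ℕ, c * m < x ↔ c < k) :
    Fq 1 (m + 2 * x) x = Fq 1 m x + k := by
  have hm' : (0 : ℤ) < m := by exact_mod_cast hm
  have hx' : (0 : ℤ) < x := by exact_mod_cast hx
  unfold Fq
  rw [(SB_card (m + 2 * x) (by omega) x).2, (SA_card (m + 2 * x) (by omega) x).2,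
    (SB_card m hm x).2, (SA_card m hm x).2]
  have hc : ((m + 2 * x : ℕ) : ℤ) = (m : ℤ) + 2 * x := by push_cast; ring
  have hdisj : Disjoint (gg '' SB m x) (hh2 '' (Finset.range k : Set ℕ)) := by
    rw [Set.disjoint_left]
    rintro _ ⟨⟨c, a, c', a'⟩, ⟨⟨-, h1, -, -, -⟩, -⟩, rfl⟩ ⟨d, -, h2⟩
    unfold hh2 gg at h2
    simp only [Prod.mk.injEq] at h2 h1
    omega
  rw [hc, SA_rec hm' hx', SB_rec hm hx k hk, Set.ncard_image_of_injective _ gg_inj,
    Set.ncard_union_eq hdisj ((SB_card m hm x).1.image _) ((Finset.finite_toSet _).image _),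
    Set.ncard_image_of_injective _ gg_inj,
    Set.ncard_image_of_injective _ hh2_inj, Set.ncard_coe_finset, Finset.card_range]
  push_cast
  ring

/-! ### the theorem -/

lemma Cd_congr {n : ℕ} {x x' : ℤ} (h : (n : ℤ) ∣ x - x') (w : Σ _ : ℕ, ℕ × ℕ) :
    Cd n x w ↔ Cd n x' w := by
  obtain ⟨k, hk⟩ := h
  unfold Cd
  constructor
  · rintro ⟨⟨c, hc⟩, ⟨d, hd⟩⟩
    exact ⟨⟨c - w.2.1 * k, by linear_combination hc - (w.2.1 : ℤ) * hk⟩,
      ⟨d - w.2.2 * k, by linear_combination hd - (w.2.2 : ℤ) * hk⟩⟩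
  · rintro ⟨⟨c, hc⟩, ⟨d, hd⟩⟩
    exact ⟨⟨c + w.2.1 * k, by linear_combination hc + (w.2.1 : ℤ) * hk⟩,
      ⟨d + w.2.2 * k, by linear_combination hd + (w.2.2 : ℤ) * hk⟩⟩

lemma Nq_congr {n : ℕ} {x x' : ℤ} (h : (n : ℤ) ∣ x - x') : Nq 1 n x = Nq 1 n x' := by
  unfold Nq
  rw [Finset.filter_congr (fun w _ => Cd_congr h w)]

lemma Fq_congr {n : ℕ} {x x' : ℤ} (h : (n : ℤ) ∣ x - x') : Fq 1 n x = Fq 1 n x' := by
  unfold Fq
  rw [Nq_congr h, Nq_congr (x := -x) (x' := -x') (by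
    obtain ⟨k, hk⟩ := h
    exact ⟨-k, by linear_combination -hk⟩)]

lemma Fq_neg (n : ℕ) (x : ℤ) : Fq 1 n (-x) = -Fq 1 n x := by
  unfold Fq
  rw [neg_neg]
  ring

lemma RS_congr {n : ℕ} {x x' y y' : ℤ} (h : (n : ℤ) ∣ x - x') (h' : (n : ℤ) ∣ y - y') :
    RS n x y = RS n x' y' := by
  unfold RS
  rw [ded_congr h, ded_congr (h := 2 * x) (h' := 2 * x') (by rw [← mul_sub]; exact h.mul_left _),
    saw_congr h, saw_congr (m := (((n + 1) / 2 : ℕ) : ℤ) * y) (n := (((n + 1) / 2 : ℕ) : ℤ) * y') (by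
      rw [← mul_sub]; exact h'.mul_left _)]

lemma RS_neg {n : ℕ} (hn : 0 < n) (x y : ℤ) : RS n (-x) (-y) = -RS n x y := by
  unfold RS
  rw [mul_neg, mul_neg, ded_neg hn, ded_neg hn, saw_neg hn, saw_neg hn]
  ring

theorem main (n : ℕ) : ∀ x y : ℤ, Odd n → (n : ℤ) ∣ x * y - 1 → (Fq 1 n x : ℚ) = RS n x y := by
  induction n using Nat.strong_induction_on with
  | _ n ih =>
    -- the case `0 < 2 x < n`
    have core : ∀ (x : ℕ) (y : ℤ), 0 < x → 2 * x < n → Odd n → (n : ℤ) ∣ x * y - 1 →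
        (Fq 1 n x : ℚ) = RS n x y := by
      intro x y hx hxn hodd hy
      obtain ⟨m, hm⟩ : ∃ m, n = m + 2 * x := ⟨n - 2 * x, by omega⟩
      have hm0 : 0 < m := by omega
      have hodd' : Odd m := by
        rw [hm] at hodd
        obtain ⟨k, hk⟩ := hodd
        exact ⟨k - x, by omega⟩
      obtain ⟨y', hy'⟩ : ∃ y' : ℤ, (m : ℤ) ∣ x * y' - 1 := by
        have h1 : IsCoprime (x : ℤ) (n : ℤ) := coprime_of_dvd hy
        obtain ⟨u, v, huv⟩ := h1
        refine ⟨u + 2 * v, -v, ?_⟩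
        rw [hm] at huv
        push_cast at huv
        linear_combination huv
      have hcop : Nat.Coprime x m := Nat.isCoprime_iff_coprime.mp (coprime_of_dvd hy')
      have hk : ∀ c : ℕ, c * m < x ↔ c < (if m = 1 then x else x / m + 1) := by
        intro c
        by_cases hm1 : m = 1
        · rw [if_pos hm1, hm1, mul_one]
        · rw [if_neg hm1, Nat.lt_succ_iff, Nat.le_div_iff_mul_le hm0]
          constructor
          · intro h
            exact h.le
          · intro h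
            apply lt_of_le_of_ne h
            intro h3
            have h4 : m ∣ x := ⟨c, by rw [← h3]; ring⟩
            have h5 := Nat.dvd_gcd h4 dvd_rfl
            rw [hcop] at h5
            exact hm1 (Nat.dvd_one.mp h5)
      have h1 := Fq_rec hm0 hx _ hk
      have h2 := RS_rec hm hx hm0 hodd hy hy'
      have h3 := ih m (by omega) x y' hodd' hy'
      rw [← hm] at h1
      rw [h1, Int.cast_add, h3, Int.cast_natCast]
      linear_combination -h2
    intro x y hodd hy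
    have hn0 : 0 < n := hodd.pos
    have hnZ : (0 : ℤ) < n := by exact_mod_cast hn0
    by_cases hn1 : n = 1
    · subst hn1
      have h1 : Om 1 1 = ∅ := by
        rw [Finset.eq_empty_iff_forall_notMem]
        rintro ⟨T, a, a'⟩ hw
        rw [mem_Om] at hw
        omega
      have h2 : ∀ u, Nq 1 1 u = 0 := by
        intro u
        unfold Nq
        rw [h1]
        rfl
      unfold Fq RS
      rw [h2, h2, ded_one, ded_one, saw_one, saw_one]
      norm_num
    · -- reduce modulo `n`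
      set x₀ : ℤ := x % n with hx₀
      have hx0 : 0 ≤ x₀ := Int.emod_nonneg _ hnZ.ne'
      have hxn : x₀ < n := Int.emod_lt_of_pos _ hnZ
      have hdiff : (n : ℤ) ∣ x - x₀ := Int.dvd_self_sub_emod
      have hx0ne : x₀ ≠ 0 := by
        intro h
        rw [h, sub_zero] at hdiff
        have h1 : (n : ℤ) ∣ 1 := by
          have h2 := dvd_sub (hdiff.mul_right y) hy
          have h3 : x * y - (x * y - 1) = 1 := by ring
          rwa [h3] at h2
        have h4 := Int.le_of_dvd one_pos h1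
        omega
      obtain ⟨ξ, hξ⟩ := Int.eq_ofNat_of_zero_le hx0
      rw [hξ] at hx0ne hxn hdiff
      have hξ0 : 0 < ξ := by omega
      rcases lt_or_ge (2 * ξ) n with h | h
      · rw [Fq_congr hdiff, RS_congr (y' := y) hdiff (by simp)]
        apply core ξ y hξ0 h hodd
        have h2 := dvd_sub hy (hdiff.mul_right y)
        have h3 : x * y - 1 - (x - ξ) * y = ξ * y - 1 := by ring
        rwa [h3] at h2
      · have hlt : ξ < n := by omega
        have hne : 2 * ξ ≠ n := by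
          intro h1
          rw [← h1] at hodd
          obtain ⟨k, hk⟩ := hodd
          omega
        have hd2 : (n : ℤ) ∣ x - (-((n - ξ : ℕ) : ℤ)) := by
          obtain ⟨k, hk⟩ := hdiff
          rw [Nat.cast_sub hlt.le]
          exact ⟨k + 1, by linear_combination hk⟩
        rw [Fq_congr hd2, RS_congr (y' := -(-y)) hd2 (by simp), Fq_neg, RS_neg hn0]
        rw [Int.cast_neg, core (n - ξ) (-y) (by omega) (by omega) hodd]
        have h2 := dvd_sub hy (hd2.mul_right y)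
        have h3 : x * y - 1 - (x - (-((n - ξ : ℕ) : ℤ))) * y = ((n - ξ : ℕ) : ℤ) * (-y) - 1 := by
          ring
        rwa [h3] at h2

/-- **Task LVL2.** -/
theorem t_LVL2 : S_LVL2 := fun n x y hodd hy => main n x y hodd hy

end Pool.Agent.Y971.N
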